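import Pool.Agent.Helper30.CIR.Goals

/-!
# Project CIR, packet EIG: Fourier coefficients along a circle action are eigenfunctions
-/

set_option autoImplicit false

open Set Filter Topology MeasureTheory

open scoped ContDiff

namespace Pool.Agent.Helper12.CIR

open Pool.Agent.Helper56.RZ Pool.Agent.Helper30.CIR

theorem ee_add (a b : ℝ) : ee (a + b) = ee a * ee b := by
  simp only [ee]
  rw [← Complex.exp_add]
  congr 1
  push_cast
  ring

theorem ee_nat (k : ℕ) : ee (-(k : ℝ)) = 1 := by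
  simp only [ee]
  rw [Complex.exp_eq_one_iff]
  refine ⟨-(k : ℤ), ?_⟩
  push_cast
  ring

theorem contDiff_ee : ContDiff ℝ ∞ ee := by
  have h1 : ContDiff ℝ ∞ (fun τ : ℝ => ((2 * Real.pi * τ : ℝ) : ℂ)) := by
    exact Complex.ofRealCLM.contDiff.comp (contDiff_const.mul contDiff_id)
  have h2 : ContDiff ℝ ∞ (fun τ : ℝ => ((2 * Real.pi * τ : ℝ) : ℂ) * Complex.I) :=
    h1.mul contDiff_const
  exact h2.cexp

theorem gEIG : StmtPIN → StmtEIG := by
  intro hPIN N K s M m A i k hs hM hF hP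
  refine ⟨?_, ?_⟩
  · intro x₀ hx₀
    obtain ⟨c, hxc, -⟩ := hM.chart x₀ hx₀
    have hG : ContDiffOn ℝ s
        (fun p : ℝ × E N => ee (-(k * p.1)) * ((A p.1 (c.ψ p.2) i : ℝ) : ℂ)) (univ ×ˢ c.V) := by
      have h1 : ContDiffOn ℝ s (fun p : ℝ × E N => ee (-(k * p.1))) (univ ×ˢ c.V) := by
        refine ContDiff.contDiffOn ?_
        refine (contDiff_ee.of_le hs).comp ?_
        exact (contDiff_const.mul contDiff_fst).neg
      have h2 : ContDiffOn ℝ s (fun p : ℝ × E N => ((p.1, c.ψ p.2) : ℝ × E K))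
          (univ ×ˢ c.V) := by
        refine ContDiffOn.prodMk contDiff_fst.contDiffOn ?_
        refine (c.smoothψ.of_le hs).comp contDiff_snd.contDiffOn ?_
        intro p hp
        exact hp.2
      have h3 : ContDiffOn ℝ s (fun p : ℝ × E N => A p.1 (c.ψ p.2)) (univ ×ˢ c.V) := by
        refine hF.smooth.comp h2 ?_
        intro p hp
        exact ⟨mem_univ _, (c.mapsψ p.2 hp.2).1⟩
      have h4 : ContDiffOn ℝ s (fun p : ℝ × E N => A p.1 (c.ψ p.2) i) (univ ×ˢ c.V) := by
        have h5 : ContDiff ℝ s (fun y : E K => y i) :=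
          (EuclideanSpace.proj (𝕜 := ℝ) i : E K →L[ℝ] ℝ).contDiff
        exact h5.comp_contDiffOn h3
      have h6 : ContDiffOn ℝ s (fun p : ℝ × E N => ((A p.1 (c.ψ p.2) i : ℝ) : ℂ))
          (univ ×ˢ c.V) :=
        Complex.ofRealCLM.contDiff.comp_contDiffOn h4
      exact h1.mul h6
    have hI := hPIN N s c.V _ hs c.openV hG
    have hφ : ContDiffOn ℝ s c.φ (M ∩ c.W) := (c.smoothφ.of_le hs).mono inter_subset_right
    have hcomp := hI.comp hφ (fun x hx => c.mapsφ x hx)
    have hx : x₀ ∈ M ∩ c.W := ⟨hx₀, hxc⟩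
    have h7 : ContDiffWithinAt ℝ s
        (fun x => ∫ t in (0 : ℝ)..1, ee (-(k * t)) * ((A t x i : ℝ) : ℂ)) (M ∩ c.W) x₀ := by
      refine (hcomp x₀ hx).congr ?_ ?_
      · intro y hy
        simp only [Function.comp, c.right y hy]
      · simp only [Function.comp, c.right x₀ hx]
    exact (contDiffWithinAt_inter (c.openW.mem_nhds hxc)).1 h7
  · intro u x hx
    have hper : Function.Periodic (fun t : ℝ => ee (-(k * t)) * ((A t x i : ℝ) : ℂ)) 1 := by
      intro t
      have h1 : A (t + 1) x = A t x := by rw [hF.add t 1 x hx, hP x hx]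
      have h2 : ee (-(k * (t + 1))) = ee (-(k * t)) := by
        have h3 : -((k : ℝ) * (t + 1)) = -(k * t) + -(k : ℝ) := by ring
        rw [h3, ee_add, ee_nat, mul_one]
      simp only [h1, h2]
    have h4 : ∀ t : ℝ, ee (-(k * t)) * ((A t (A u x) i : ℝ) : ℂ) =
        ee (k * u) * (ee (-(k * (t + u))) * ((A (t + u) x i : ℝ) : ℂ)) := by
      intro t
      rw [← mul_assoc, ← ee_add, hF.add t u x hx]
      congr 2
      ring
    have h5 : (fun t : ℝ => ee (-(k * t)) * ((A t (A u x) i : ℝ) : ℂ)) =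
        fun t : ℝ => ee (k * u) * (ee (-(k * (t + u))) * ((A (t + u) x i : ℝ) : ℂ)) :=
      funext h4
    simp only [h5]
    rw [intervalIntegral.integral_const_mul]
    have h6 := intervalIntegral.integral_comp_add_right
      (fun t : ℝ => ee (-(k * t)) * ((A t x i : ℝ) : ℂ)) u (a := 0) (b := 1)
    have h7 := hper.intervalIntegral_add_eq u 0
    have h8 : (∫ t in (0 : ℝ)..1, ee (-(k * (t + u))) * ((A (t + u) x i : ℝ) : ℂ)) =
        ∫ t in (0 : ℝ)..1, ee (-(k * t)) * ((A t x i : ℝ) : ℂ) := by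
      rw [h6, zero_add, add_comm 1 u, h7, zero_add]
    rw [h8]
    congr 1
    simp only [ee]
    congr 3
    ring

end Pool.Agent.Helper12.CIR
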